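import Pool.Agent.Helper30.TR.Spec

/-!
# TR, CH: the chords of the regular polygon
-/

set_option autoImplicit false

namespace Pool.Agent.Helper27.TR.CH

open Pool.Agent.Helper30.TR Pool.Agent.Helper30.TriFace

/-- the vertex with an integer index -/
lemma vert (n : ℕ) (hn : 0 < n) (a : ℤ) : ∃ i : Fin n, (i : ℤ) = a % n ∧
    rg n i = (Real.cos (2 * Real.pi * a / n), Real.sin (2 * Real.pi * a / n)) := by
  have hnZ : (0 : ℤ) < n := by exact_mod_cast hn
  have h0 : 0 ≤ a % (n : ℤ) := Int.emod_nonneg a hnZ.ne'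
  have h1 : a % (n : ℤ) < n := Int.emod_lt_of_pos a hnZ
  refine ⟨⟨(a % (n : ℤ)).toNat, by omega⟩, ?_, ?_⟩
  · simp only [Int.toNat_of_nonneg h0]
  · have h2 : ((a % (n : ℤ)).toNat : ℤ) = a - n * (a / n) := by
      rw [Int.toNat_of_nonneg h0]
      have := Int.mul_ediv_add_emod a n
      linarith
    have h3 : (((a % (n : ℤ)).toNat : ℕ) : ℝ) = (a : ℝ) - n * ((a / n : ℤ) : ℝ) := by
      exact_mod_cast h2
    have hnR : (n : ℝ) ≠ 0 := by exact_mod_cast hn.ne'
    have h4 : 2 * Real.pi * (((a % (n : ℤ)).toNat : ℕ) : ℝ) / n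
        = 2 * Real.pi * a / n - ((a / n : ℤ) : ℝ) * (2 * Real.pi) := by
      rw [h3]
      field_simp
    simp only [rg]
    rw [h4, Real.cos_sub_int_mul_two_pi, Real.sin_sub_int_mul_two_pi]

theorem main : S_CH := by
  intro n s m hn hm hmn hd
  obtain ⟨c, hc⟩ := hd
  have hn0 : 0 < n := by omega
  have hnR : (0 : ℝ) < n := by exact_mod_cast hn0
  obtain ⟨i, hi, hri⟩ := vert n hn0 (-c)
  obtain ⟨j, hj, hrj⟩ := vert n hn0 (-c + m)
  refine ⟨i, j, ?_, -2 * Real.sin (Real.pi * m / n), ?_, ?_⟩
  · intro hij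
    rw [hij, hj] at hi
    have h1 : ((-c + m) - (-c)) % (n : ℤ) = 0 := by
      rw [Int.sub_emod, hi]
      simp
    have h2 : (-c + m) - (-c) = m := by ring
    rw [h2, Int.emod_eq_of_lt hm.le hmn] at h1
    omega
  · have h1 : 0 < Real.sin (Real.pi * m / n) := by
      apply Real.sin_pos_of_pos_of_lt_pi
      · have : (0 : ℝ) < m := by exact_mod_cast hm
        positivity
      · rw [div_lt_iff₀ hnR]
        have : (m : ℝ) < n := by exact_mod_cast hmn
        exact mul_lt_mul_of_pos_left this Real.pi_pos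
    intro h
    nlinarith
  · intro x
    have e1 : 2 * Real.pi * ((-c : ℤ) : ℝ) / n = th n s - Real.pi * m / n := by
      have : (m : ℝ) - s = 2 * c := by exact_mod_cast hc
      unfold th
      push_cast
      field_simp
      linarith
    have e2 : 2 * Real.pi * ((-c + m : ℤ) : ℝ) / n = th n s + Real.pi * m / n := by
      have : (m : ℝ) - s = 2 * c := by exact_mod_cast hc
      unfold th
      push_cast
      field_simp
      linarith
    rw [hri, hrj, e1, e2]
    simp only [det3, hh]
    set t := th n s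
    set u := Real.pi * m / n
    rw [Real.cos_sub, Real.sin_sub, Real.cos_add, Real.sin_add]
    have h1 := Real.sin_sq_add_cos_sq t
    linear_combination (2 * Real.sin u * Real.cos u) * h1

end Pool.Agent.Helper27.TR.CH
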