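import Pool.Agent.Helper30.TR.Spec

/-!
# TR, CI: the regular polygon is in convex position
-/

set_option autoImplicit false

namespace Pool.Agent.Helper27.TR.CI

open Pool.Agent.Helper30.TR

lemma ang (n : ℕ) (i k : Fin n) (h : k ≠ i) :
    (rg n k).1 * (rg n i).1 + (rg n k).2 * (rg n i).2 < 1 := by
  have hn : 0 < n := by
    rcases Nat.eq_zero_or_pos n with h0 | h0
    · subst h0; exact i.elim0
    · exact h0
  have hnR : (0 : ℝ) < n := by exact_mod_cast hn
  have e : (rg n k).1 * (rg n i).1 + (rg n k).2 * (rg n i).2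
      = Real.cos (2 * Real.pi * k / n - 2 * Real.pi * i / n) := by
    rw [Real.cos_sub]; rfl
  rw [e]
  refine lt_of_le_of_ne (Real.cos_le_one _) ?_
  intro hc
  rw [Real.cos_eq_one_iff] at hc
  obtain ⟨z, hz⟩ := hc
  have hpi := Real.pi_pos
  have h1 : (z : ℝ) * n = (k : ℝ) - i := by
    have h2 : (z : ℝ) * (2 * Real.pi) * n = 2 * Real.pi * k - 2 * Real.pi * i := by
      rw [hz]; field_simp
    have h3 : (2 * Real.pi) * ((z : ℝ) * n) = (2 * Real.pi) * ((k : ℝ) - i) := by linarith
    exact mul_left_cancel₀ (by positivity) h3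
  have h4 : z * (n : ℤ) = ((k : ℕ) : ℤ) - ((i : ℕ) : ℤ) := by exact_mod_cast h1
  have hk := k.2
  have hi := i.2
  have hz0 : z = 0 := by
    by_contra hz0
    rcases lt_or_gt_of_ne hz0 with h5 | h5
    · have : z * (n : ℤ) ≤ -1 * (n : ℤ) := mul_le_mul_of_nonneg_right (by omega) (by omega)
      omega
    · have : 1 * (n : ℤ) ≤ z * (n : ℤ) := mul_le_mul_of_nonneg_right (by omega) (by omega)
      omega
  rw [hz0, zero_mul] at h4
  apply h
  apply Fin.ext
  omega

theorem main : S_CI := by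
  intro n S i hi
  by_contra hS
  have hconv : Convex ℝ {y : ℝ × ℝ | y.1 * (rg n i).1 + y.2 * (rg n i).2 < 1} := by
    intro y hy z hz a b ha hb hab
    simp only [Set.mem_setOf_eq] at hy hz ⊢
    simp only [Prod.fst_add, Prod.smul_fst, Prod.snd_add, Prod.smul_snd, smul_eq_mul]
    have e : (a * y.1 + b * z.1) * (rg n i).1 + (a * y.2 + b * z.2) * (rg n i).2
        = a * (y.1 * (rg n i).1 + y.2 * (rg n i).2) + b * (z.1 * (rg n i).1 + z.2 * (rg n i).2) := by
      ring
    rw [e]
    rcases eq_or_lt_of_le ha with h | h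
    · have hb1 : b = 1 := by linarith
      subst hb1
      rw [← h]
      linarith
    · nlinarith
  have hsub : rg n '' S ⊆ {y : ℝ × ℝ | y.1 * (rg n i).1 + y.2 * (rg n i).2 < 1} := by
    rintro y ⟨k, hk, rfl⟩
    exact ang n i k (fun h => hS (h ▸ hk))
  have h1 := convexHull_min hsub hconv hi
  have h2 : (rg n i).1 * (rg n i).1 + (rg n i).2 * (rg n i).2 = 1 := by
    have := Real.cos_sq_add_sin_sq (2 * Real.pi * i / n)
    simp only [rg]
    nlinarith
  simp only [Set.mem_setOf_eq] at h1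
  linarith

end Pool.Agent.Helper27.TR.CI
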