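import Pool.Agent.Helper30.TR.Spec

/-!
# TR, SP: upper bound for two directions by slices
-/

set_option autoImplicit false

namespace Pool.Agent.Helper27.TR.SP

open MeasureTheory Set Pool.Agent.Helper30.TR

lemma rot_sq (θ : ℝ) (x : ℝ × ℝ) :
    hh θ x ^ 2 + hh (θ + Real.pi / 2) x ^ 2 = x.1 ^ 2 + x.2 ^ 2 := by
  simp only [hh, Real.cos_add_pi_div_two, Real.sin_add_pi_div_two]
  linear_combination (x.1 ^ 2 + x.2 ^ 2) * Real.sin_sq_add_cos_sq θ

lemma rot_dir (θ θ' : ℝ) (x : ℝ × ℝ) :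
    hh θ' x = hh θ x * Real.cos (θ' - θ) + hh (θ + Real.pi / 2) x * Real.sin (θ' - θ) := by
  simp only [hh, Real.cos_add_pi_div_two, Real.sin_add_pi_div_two, Real.cos_sub, Real.sin_sub]
  linear_combination (-(x.1 * Real.cos θ' + x.2 * Real.sin θ')) * Real.sin_sq_add_cos_sq θ

/-- the slices of the disc -/
lemma slice_disc (κ c : ℝ) (hκ : 0 < κ) (hc : |c| ≤ κ) (t : ℝ) :
    c ^ 2 + t ^ 2 ≤ κ ^ 2 ↔ t ∈ Icc (-Real.sqrt (κ ^ 2 - c ^ 2)) (Real.sqrt (κ ^ 2 - c ^ 2)) := by
  rw [mem_Icc, ← abs_le]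
  have h0 : 0 ≤ κ ^ 2 - c ^ 2 := by nlinarith [sq_abs c, abs_nonneg c]
  constructor
  · intro h
    exact Real.abs_le_sqrt (by linarith)
  · intro h
    have h1 := Real.sq_sqrt h0
    have h2 : t ^ 2 ≤ Real.sqrt (κ ^ 2 - c ^ 2) ^ 2 := by
      rw [← sq_abs t]
      exact pow_le_pow_left₀ (abs_nonneg t) h 2
    linarith

lemma aff_vol (c s : ℝ) (hs : s ≠ 0) (Z : Set ℝ) :
    volume {t : ℝ | c + t * s ∈ Z} = ENNReal.ofReal |s⁻¹| * volume Z := by
  have e : {t : ℝ | c + t * s ∈ Z} = (fun t => s * t) ⁻¹' ((fun t => c + t) ⁻¹' Z) := by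
    ext t
    simp [mul_comm]
  rw [e, Real.volume_preimage_mul_left hs, measure_preimage_add]

theorem main (hROT : S_ROT) : S_SP := by
  intro θ θ' a b κ Y Y' ha hb hκ hY hY' hs hden
  set S1 : Set (ℝ × ℝ) := {z | z.1 ^ 2 + z.2 ^ 2 ≤ κ ^ 2 ∧ z.1 ∈ Y ∧
    z.1 * Real.cos (θ' - θ) + z.2 * Real.sin (θ' - θ) ∈ Y'} with hS1
  set S2 : Set (ℝ × ℝ) := {z | z.1 ^ 2 + z.2 ^ 2 ≤ κ ^ 2 ∧ z.1 ∈ Y} with hS2
  have md : MeasurableSet {z : ℝ × ℝ | z.1 ^ 2 + z.2 ^ 2 ≤ κ ^ 2} :=
    measurableSet_le (by fun_prop) (by fun_prop)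
  have m2 : MeasurableSet S2 := md.inter (hY.preimage measurable_fst)
  have m1 : MeasurableSet S1 := by
    refine md.inter ((hY.preimage measurable_fst).inter (hY'.preimage ?_))
    exact (measurable_fst.mul_const _).add (measurable_snd.mul_const _)
  have e1 : ar {x | x ∈ Ds κ ∧ hh θ x ∈ Y ∧ hh θ' x ∈ Y'} = (volume S1).toReal := by
    unfold ar
    rw [← hROT θ S1 m1]
    congr 2
    ext x
    simp only [hS1, mem_setOf_eq, Ds]
    rw [rot_sq, ← rot_dir]
  have e2 : ar {x | x ∈ Ds κ ∧ hh θ x ∈ Y} = (volume S2).toReal := by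
    unfold ar
    rw [← hROT θ S2 m2]
    congr 2
    ext x
    simp only [hS2, mem_setOf_eq, Ds]
    rw [rot_sq]
  rw [e1, e2]
  set s := Real.sin (θ' - θ) with hsd
  set co := Real.cos (θ' - θ) with hco
  have hsc : s ^ 2 + co ^ 2 = 1 := Real.sin_sq_add_cos_sq _
  have hs' : 0 < |s| := abs_pos.2 hs
  -- the slices
  have hsl : ∀ c : ℝ, volume (Prod.mk c ⁻¹' S1) ≤ ENNReal.ofReal a * volume (Prod.mk c ⁻¹' S2)
      + (Y ∩ Icc (-κ) κ).indicator (fun _ => ENNReal.ofReal (b / |s|)) c := by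
    intro c
    by_cases hc : c ∈ Y ∩ Icc (-κ) κ
    · rw [indicator_of_mem hc]
      have hcκ : |c| ≤ κ := abs_le.2 hc.2
      set w := Real.sqrt (κ ^ 2 - c ^ 2) with hw
      have hw0 : 0 ≤ w := Real.sqrt_nonneg _
      have hw2 : w ^ 2 = κ ^ 2 - c ^ 2 := Real.sq_sqrt (by nlinarith [sq_abs c, abs_nonneg c])
      have f2 : Prod.mk c ⁻¹' S2 = Icc (-w) w := by
        ext t
        simp only [hS2, mem_preimage, mem_setOf_eq]
        rw [slice_disc κ c hκ hcκ t]
        simp [hc.1]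
        rfl
      have f1 : Prod.mk c ⁻¹' S1 ⊆ {t : ℝ | c * co + t * s ∈
          Y' ∩ Icc (c * co - w * |s|) (c * co + w * |s|)} := by
        intro t ht
        simp only [hS1, mem_preimage, mem_setOf_eq] at ht
        rw [slice_disc κ c hκ hcκ t] at ht
        obtain ⟨ht1, -, ht2⟩ := ht
        have h1 : |t| ≤ w := abs_le.2 ht1
        have h2 : |t * s| ≤ w * |s| := by
          rw [abs_mul]; exact mul_le_mul_of_nonneg_right h1 (abs_nonneg _)
        have h3 := abs_le.1 h2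
        exact ⟨ht2, by linarith [h3.1], by linarith [h3.2]⟩
      have hC : |c * co| + w * |s| ≤ κ := by
        have h1 : (|c * co| + w * |s|) ^ 2 ≤ κ ^ 2 := by
          have h2 : |c * co| = |c| * |co| := abs_mul c co
          rw [h2]
          have h3 : κ ^ 2 = (|c| ^ 2 + w ^ 2) * (|co| ^ 2 + |s| ^ 2) := by
            rw [sq_abs, sq_abs, sq_abs, hw2]
            have : co ^ 2 + s ^ 2 = 1 := by linarith
            rw [this]; ring
          rw [h3]
          nlinarith [sq_nonneg (|c| * |s| - w * |co|)]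
        exact abs_le_of_sq_le_sq' h1 hκ.le |>.2
      have hC1 := abs_le.1 (le_refl |c * co|)
      have g1 : volume (Y' ∩ Icc (c * co - w * |s|) (c * co + w * |s|))
          ≤ ENNReal.ofReal (a * (2 * w * |s|) + b) := by
        have h1 := hden (c * co - w * |s|) (c * co + w * |s|) (by linarith [hC1.1, neg_abs_le (c * co)])
          (by nlinarith) (by linarith [le_abs_self (c * co)])
        have hfin : volume (Y' ∩ Icc (c * co - w * |s|) (c * co + w * |s|)) ≠ ⊤ :=
          ((measure_mono inter_subset_right).trans_lt measure_Icc_lt_top).ne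
        rw [← ENNReal.ofReal_toReal hfin]
        apply ENNReal.ofReal_le_ofReal
        refine le_trans h1 (le_of_eq ?_)
        ring
      calc volume (Prod.mk c ⁻¹' S1)
          ≤ volume {t : ℝ | c * co + t * s ∈ Y' ∩ Icc (c * co - w * |s|) (c * co + w * |s|)} :=
            measure_mono f1
        _ = ENNReal.ofReal |s⁻¹| * volume (Y' ∩ Icc (c * co - w * |s|) (c * co + w * |s|)) :=
            aff_vol _ _ hs _
        _ ≤ ENNReal.ofReal |s⁻¹| * ENNReal.ofReal (a * (2 * w * |s|) + b) := by gcongr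
        _ = ENNReal.ofReal a * volume (Prod.mk c ⁻¹' S2) + ENNReal.ofReal (b / |s|) := by
            rw [f2, Real.volume_Icc, ← ENNReal.ofReal_mul (abs_nonneg _), ← ENNReal.ofReal_mul ha,
              ← ENNReal.ofReal_add (mul_nonneg ha (by linarith)) (by positivity)]
            congr 1
            rw [abs_inv]
            field_simp
            ring
    · have hz : Prod.mk c ⁻¹' S1 = ∅ := by
        rw [eq_empty_iff_forall_notMem]
        intro t ht
        simp only [hS1, mem_preimage, mem_setOf_eq] at ht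
        apply hc
        refine ⟨ht.2.1, abs_le.1 ?_⟩
        have h1 : c ^ 2 ≤ κ ^ 2 := by nlinarith [sq_nonneg t, ht.1]
        exact abs_le_of_sq_le_sq h1 hκ.le
      rw [hz, measure_empty]
      exact zero_le
  have mYI : MeasurableSet (Y ∩ Icc (-κ) κ) := hY.inter measurableSet_Icc
  have hv : volume S1 ≤ ENNReal.ofReal a * volume S2
      + ENNReal.ofReal (b / |s|) * volume (Y ∩ Icc (-κ) κ) := by
    have hm : Measurable (fun c => volume (Prod.mk c ⁻¹' S2)) := measurable_measure_prodMk_left m2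
    rw [Measure.volume_eq_prod, Measure.prod_apply m1, Measure.prod_apply m2,
      ← lintegral_const_mul _ hm, ← setLIntegral_const, ← lintegral_indicator mYI,
      ← lintegral_add_left (hm.const_mul _)]
    exact lintegral_mono hsl
  have hS2f : volume S2 < ⊤ := by
    have h1 : S2 ⊆ Icc (-κ) κ ×ˢ Icc (-κ) κ := by
      intro z hz
      have h2 : z.1 ^ 2 ≤ κ ^ 2 := by nlinarith [sq_nonneg z.2, hz.1]
      have h3 : z.2 ^ 2 ≤ κ ^ 2 := by nlinarith [sq_nonneg z.1, hz.1]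
      exact ⟨abs_le.1 (abs_le_of_sq_le_sq h2 hκ.le), abs_le.1 (abs_le_of_sq_le_sq h3 hκ.le)⟩
    refine lt_of_le_of_lt (measure_mono h1) ?_
    rw [Measure.volume_eq_prod, Measure.prod_prod]
    exact ENNReal.mul_lt_top measure_Icc_lt_top measure_Icc_lt_top
  have hYf : volume (Y ∩ Icc (-κ) κ) < ⊤ :=
    (measure_mono inter_subset_right).trans_lt measure_Icc_lt_top
  have hfin : ENNReal.ofReal a * volume S2
      + ENNReal.ofReal (b / |s|) * volume (Y ∩ Icc (-κ) κ) ≠ ⊤ :=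
    (ENNReal.add_lt_top.2 ⟨ENNReal.mul_lt_top ENNReal.ofReal_lt_top hS2f,
      ENNReal.mul_lt_top ENNReal.ofReal_lt_top hYf⟩).ne
  have h9 := ENNReal.toReal_mono hfin hv
  rw [ENNReal.toReal_add (ENNReal.mul_lt_top ENNReal.ofReal_lt_top hS2f).ne
    (ENNReal.mul_lt_top ENNReal.ofReal_lt_top hYf).ne, ENNReal.toReal_mul, ENNReal.toReal_mul,
    ENNReal.toReal_ofReal ha, ENNReal.toReal_ofReal (by positivity)] at h9
  exact h9

end Pool.Agent.Helper27.TR.SP
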